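import Mathlib
import Pool.Agent.Q148.BM.PieriDual

/-!
# The geometric Breuil–Mézard conjecture for `GL_3` and wild principal series types: one relation
with six terms

Notation. `J`: the embeddings `K → E`. A labelled weight `l : HT J 3` is a triple of integers for
every embedding; `Reg l`: strictly decreasing at every embedding, i.e. `l = λ + η` with a
dominant `λ`; `eta = (2,1,0)` at every embedding is `λ = 0`. `X`: the group of smooth characters
of the units of `K`; `W`: the tame ones. `χ : Fin 3 → X` stands for the inertial type `⊕ χ s`;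
`Wild W χ`: no ratio of two of the characters is tame.
-/

namespace Pool.Agent.Results.MP_37ec22_nt.WildPrincipalSeries

open Q148.BM Finset

/-- The data of the geometric conjecture for `K`, `GL_3` and inertial types which are sums of
characters, with the published properties that are used. `V`: Serre weights. `A`: the group of
cycles. `n χ k l`: the multiplicity of `k` in the reduction of `σ(λ, χ)`. `Z χ l`: the cycle of
the special fibre of the potentially crystalline stack of Hodge type `λ` and inertial type `χ`.
`C k`: the cycles which satisfy the identities for `λ = 0`. -/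
structure WildData (J X V A : Type*) [Fintype J] [DecidableEq J] [CommGroup X]
    [Fintype V] [AddCommGroup A] where
  /-- the tame characters -/
  W : Subgroup X
  /-- the Teichmüller lifts of the embeddings modulo `p` -/
  ω : J → X
  /-- they are tame -/
  ω_tame : ∀ j, ω j ∈ W
  /-- multiplicities of Serre weights -/
  n : (Fin 3 → X) → V → HT J 3 → ℤ
  /-- cycles of the special fibres -/
  Z : (Fin 3 → X) → HT J 3 → A
  /-- the cycles attached to the Serre weights -/
  C : V → A
  /-- `σ(χ)` is induced from a group whose quotient of order prime to `p` is the torus: the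
  multiplicities satisfy the Pieri relations -/
  pieri_n : ∀ k, Pieri W ω (fun χ => n χ k)
  /-- twisting by potentially crystalline characters which are trivial modulo `p` -/
  twist : TwistX W ω Z
  /-- duality of representations -/
  dual : ∃ ι : A ≃+ A, ∀ χ, Wild W χ → ∀ l, Reg l →
    Z χ (revNeg l) = ι (Z (fun s => (χ s)⁻¹) l)
  /-- the identities for `λ = 0` (known for `p ≥ 5`) -/
  zero : ∀ χ, Wild W χ → Z χ eta = ∑ k, n χ k eta • C k

/-- The identities of the conjecture hold with the cycles `C k` for all `λ` and all wild principal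
series types if and only if
`Z(χ; l + ε₁) + Z(χ; l + ε₂) + Z(χ; l + ε₃) = Z(χ₁ω, χ₂, χ₃; l) + Z(χ₁, χ₂ω, χ₃; l) +
Z(χ₁, χ₂, χ₃ω; l)` always. -/
theorem result {J X V A : Type*} [Fintype J] [DecidableEq J] [CommGroup X]
    [Fintype V] [AddCommGroup A] (D : WildData J X V A) :
    (∀ χ, Wild D.W χ → ∀ l, Reg l → D.Z χ l = ∑ k, D.n χ k l • D.C k) ↔
      ∀ χ, Wild D.W χ → ∀ (j : J) (l : HT J 3),
        alt (D.Z χ) (l + bump j {0} 1) + alt (D.Z χ) (l + bump j {1} 1) +
          alt (D.Z χ) (l + bump j {2} 1) =
        alt (D.Z (tw D.ω j {0} χ)) l + alt (D.Z (tw D.ω j {1} χ)) l +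
          alt (D.Z (tw D.ω j {2} χ)) l := by
  obtain ⟨ι, hι⟩ := D.dual
  have key : ∀ F : Finset (Fin 3) → A, ∑ S ∈ powersetCard 1 univ, F S = F {0} + F {1} + F {2} := by
    intro F
    rw [powersetCard_one, sum_map, Fin.sum_univ_three]
    rfl
  have h1 := criterionP D.ω_tame three_pos D.pieri_n D.Z D.C
  have h2 : Pieri D.W D.ω D.Z ↔ ∀ χ, Wild D.W χ → ∀ (j : J) (l : HT J 3),
        alt (D.Z χ) (l + bump j {0} 1) + alt (D.Z χ) (l + bump j {1} 1) +
          alt (D.Z χ) (l + bump j {2} 1) =
        alt (D.Z (tw D.ω j {0} χ)) l + alt (D.Z (tw D.ω j {1} χ)) l +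
          alt (D.Z (tw D.ω j {2} χ)) l := by
    constructor
    · intro h χ hχ j l
      have := h χ hχ j 1 le_rfl (by norm_num) l
      rwa [key, key] at this
    · intro h
      refine pieri_of_half (R := Unit) (E := fun _ => D.Z) (fun _ => D.twist.alt) (fun _ => ()) ι
        (fun _ => hι) D.ω_tame (fun _ => ?_) ()
      intro χ hχ j i h1 h2 l
      obtain rfl : i = 1 := by omega
      rw [key, key]
      exact h χ hχ j l
  rw [h1, h2]
  exact ⟨fun h => h.1, fun h => ⟨h, D.zero⟩⟩

end Pool.Agent.Results.MP_37ec22_nt.WildPrincipalSeries
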